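import Mathlib

/-!
# Growth of the Wilson quotients
-/

set_option autoImplicit false

open Finset

namespace Pool.Agent.Y935.WP

/-- `(n! + 1) / (n + 1)` -/
noncomputable def ww (n : ℕ) : ℝ := ((Nat.factorial n : ℝ) + 1) / ((n : ℝ) + 1)

lemma ww_pos (n : ℕ) : 0 < ww n := by unfold ww; positivity

lemma ww_succ (n : ℕ) : ww (n + 1) * ((n : ℝ) + 2) = ((n : ℝ) + 1) ^ 2 * ww n - n := by
  unfold ww
  rw [Nat.factorial_succ]
  push_cast
  have h1 : (n : ℝ) + 1 ≠ 0 := by positivity
  have h2 : (n : ℝ) + 1 + 1 ≠ 0 := by positivity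
  field_simp
  ring

lemma ww_growth (n : ℕ) : ((n + 1 : ℕ) : ℝ) * (1 + ∑ m ∈ range n, (ww m + 2)) ≤ 26 * ww n := by
  rcases lt_or_ge n 4 with h | h
  · have h0 : ww 0 = 2 := by unfold ww; norm_num
    have h1 : ww 1 = 1 := by unfold ww; norm_num [Nat.factorial]
    have h2 : ww 2 = 1 := by unfold ww; norm_num [Nat.factorial]
    have h3 : ww 3 = 7 / 4 := by unfold ww; norm_num [Nat.factorial]
    interval_cases n <;> simp only [Finset.sum_range_succ, Finset.sum_range_zero, h0, h1, h2, h3] <;>
      norm_num
  · obtain ⟨d, rfl⟩ : ∃ d, n = 4 + d := ⟨n - 4, by omega⟩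
    have key : ((4 + d + 1 : ℕ) : ℝ) * (1 + ∑ m ∈ range (4 + d), (ww m + 2)) ≤ 26 * ww (4 + d) ∧
        5 ≤ ww (4 + d) := by
      induction d with
      | zero =>
        have h0 : ww 0 = 2 := by unfold ww; norm_num
        have h1 : ww 1 = 1 := by unfold ww; norm_num [Nat.factorial]
        have h2 : ww 2 = 1 := by unfold ww; norm_num [Nat.factorial]
        have h3 : ww 3 = 7 / 4 := by unfold ww; norm_num [Nat.factorial]
        have h4 : ww 4 = 5 := by unfold ww; norm_num [Nat.factorial]
        simp only [add_zero, Finset.sum_range_succ, Finset.sum_range_zero, h0, h1, h2, h3, h4]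
        norm_num
      | succ d ih =>
        obtain ⟨i1, i2⟩ := ih (by omega)
        have hs := ww_succ (4 + d)
        rw [show 4 + (d + 1) = 4 + d + 1 by ring, Finset.sum_range_succ]
        set T := 1 + ∑ m ∈ range (4 + d), (ww m + 2) with hT
        set y := ww (4 + d) with hy
        set z := ww (4 + d + 1) with hz
        have hn : (4 : ℝ) ≤ ((4 + d : ℕ) : ℝ) := by push_cast; linarith [Nat.cast_nonneg (α := ℝ) d]
        set n : ℝ := ((4 + d : ℕ) : ℝ) with hnn
        have e1 : ((4 + d + 1 : ℕ) : ℝ) = n + 1 := by rw [hnn]; push_cast; ring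
        have e2 : ((4 + d + 1 + 1 : ℕ) : ℝ) = n + 2 := by rw [hnn]; push_cast; ring
        rw [e1] at i1
        rw [e2]
        have hTeq : 1 + (∑ m ∈ range (4 + d), (ww m + 2) + (y + 2)) = T + (y + 2) := by
          rw [hT]; ring
        rw [hTeq]
        have hT5 : 5 * T ≤ 26 * y := by
          have hT0 : 0 ≤ T := by
            rw [hT]
            have : 0 ≤ ∑ m ∈ range (4 + d), (ww m + 2) := Finset.sum_nonneg fun m _ => by
              have := ww_pos m; linarith
            linarith
          nlinarith
        constructor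
        · have h1 : (n + 2) * ((n + 2) * (T + (y + 2))) ≤ (n + 2) * (26 * z) := by
            have h2 : (n + 2) * (26 * z) = 26 * ((n + 1) ^ 2 * y - n) := by
              rw [← hs]; ring
            rw [h2]
            have h3 : T + (y + 2) ≤ 31 / 5 * y + 2 := by linarith
            have h4 : (n + 2) * (n + 2) ≤ 36 / 25 * (n + 1) ^ 2 := by nlinarith
            calc (n + 2) * ((n + 2) * (T + (y + 2))) = ((n + 2) * (n + 2)) * (T + (y + 2)) := by ring
              _ ≤ (36 / 25 * (n + 1) ^ 2) * (31 / 5 * y + 2) := by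
                  have : 0 ≤ 31 / 5 * y + 2 := by linarith
                  have hTy : 0 ≤ (n + 2) * (n + 2) := by positivity
                  calc _ ≤ ((n + 2) * (n + 2)) * (31 / 5 * y + 2) := by gcongr
                    _ ≤ _ := by gcongr
              _ ≤ 26 * ((n + 1) ^ 2 * y - n) := by
                  have h5 : 0 ≤ (n + 1) ^ 2 * (y - 5) := mul_nonneg (by positivity) (by linarith)
                  nlinarith
          exact le_of_mul_le_mul_left h1 (by linarith)
        · have h1 : 5 * (n + 2) ≤ z * (n + 2) := by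
            rw [hs]
            have h5 : 0 ≤ (n + 1) ^ 2 * (y - 5) := mul_nonneg (by positivity) (by linarith)
            nlinarith
          exact le_of_mul_le_mul_right h1 (by linarith)
    exact key.1

end Pool.Agent.Y935.WP
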