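import Pool.Agent.Y935.RP.Cell
import Pool.Agent.Y935.RP.Couple
import Pool.Agent.Y935.RP.Len
import Pool.Agent.Y935.RP.Fin
import Pool.Agent.TH888.R.Blk

/-!
# Residues of `⌈x w_n⌉` modulo `M_n` for a rapidly growing sequence `w`, arbitrary targets
-/

set_option autoImplicit false

open MeasureTheory Set Finset Filter

namespace Pool.Agent.Y935.WP

open Pool.Agent.Y935.RP

/-- from intervals to bounded order connected sets -/
lemma oc {h : ℝ → ℝ} {D : ℝ} (hD0 : 0 ≤ D) (hD : ∀ u v : ℝ, u ≤ v → |∫ x in u..v, h x| ≤ D)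
    {I : Set ℝ} (hI : I.OrdConnected) {u v : ℝ} (hb : I ⊆ Icc u v) : |∫ x in I, h x| ≤ D := by
  rcases I.eq_empty_or_nonempty with rfl | hne
  · simpa using hD0
  have hbb : BddBelow I := ⟨u, fun x hx => (hb hx).1⟩
  have hba : BddAbove I := ⟨v, fun x hx => (hb hx).2⟩
  have hle : sInf I ≤ sSup I := csInf_le_csSup hne hbb hba
  have h1 : Ioo (sInf I) (sSup I) ⊆ I := by
    intro x hx
    obtain ⟨y, hy, hyx⟩ := exists_lt_of_csInf_lt hne hx.1
    obtain ⟨z, hz, hxz⟩ := exists_lt_of_lt_csSup hne hx.2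
    exact hI.out hy hz ⟨hyx.le, hxz.le⟩
  have h2 : I ⊆ Icc (sInf I) (sSup I) := fun x hx => ⟨csInf_le hbb hx, le_csSup hba hx⟩
  have hae : I =ᵐ[volume] Ioc (sInf I) (sSup I) := by
    have e1 : Ioo (sInf I) (sSup I) =ᵐ[volume] Ioc (sInf I) (sSup I) := Ioo_ae_eq_Ioc
    have e2 : Ioc (sInf I) (sSup I) =ᵐ[volume] Icc (sInf I) (sSup I) := Ioc_ae_eq_Icc
    refine Filter.EventuallyLE.antisymm ?_ ?_
    · exact (LE.le.eventuallyLE h2).trans e2.symm.le
    · exact e1.symm.le.trans (LE.le.eventuallyLE h1)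
  rw [setIntegral_congr_set hae, ← intervalIntegral.integral_of_le hle]
  exact hD _ _ hle

variable (w : ℕ → ℝ) (M : ℕ → ℕ) (A : ℕ → Finset ℕ)

/-- indicator function of the event -/
noncomputable def f (n : ℕ) (x : ℝ) : ℝ :=
  if (⌈x * w n⌉ % (M n : ℤ)).toNat ∈ A n then 1 else 0

/-- the density of the targets -/
noncomputable def v (n : ℕ) : ℝ := ((A n).card : ℝ) / M n

/-- the centred function -/
noncomputable def F (n : ℕ) (x : ℝ) : ℝ := ∑ a ∈ A n, hh (M n) (x * w n - a)

variable {w M A} (hw : ∀ n, 0 < w n) (hM : ∀ n, 1 ≤ M n) (hA : ∀ n, A n ⊆ Finset.range (M n))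

include hM hA in
lemma f_eq (n : ℕ) (x : ℝ) : f w M A n x = v M A n + F w M A n x := by
  have h1 : F w M A n x = (∑ a ∈ A n, gg (M n) (x * w n - a)) - v M A n := by
    unfold F hh v
    rw [Finset.sum_sub_distrib, Finset.sum_const, nsmul_eq_mul]
    ring
  have h2 : ∀ a ∈ A n, gg (M n) (x * w n - a) =
      if (⌈x * w n⌉ % (M n : ℤ)).toNat = a then 1 else 0 := by
    intro a ha
    have haM : a < M n := Finset.mem_range.1 (hA n ha)
    have hM0 : (0 : ℤ) < M n := by exact_mod_cast (hM n)
    unfold gg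
    have e1 : ⌈x * w n - a⌉ = ⌈x * w n⌉ - (a : ℤ) := by
      have := Int.ceil_sub_intCast (x * w n) (a : ℤ)
      simpa using this
    have e2 : ((M n : ℤ) ∣ ⌈x * w n - a⌉) ↔ (⌈x * w n⌉ % (M n : ℤ)).toNat = a := by
      rw [e1]
      have h0 := Int.emod_nonneg ⌈x * w n⌉ hM0.ne'
      have ha' : ((a : ℤ)) % (M n : ℤ) = a := Int.emod_eq_of_lt (by positivity) (by exact_mod_cast haM)
      constructor
      · intro hd
        have h3 : ⌈x * w n⌉ % (M n : ℤ) = (a : ℤ) % (M n : ℤ) :=
          (Int.emod_emod_of_dvd _ (dvd_refl _)).symm.trans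
            ((Int.ModEq.symm ((Int.modEq_iff_dvd).2 hd)) ▸ (Int.emod_emod_of_dvd _ (dvd_refl _)))
        rw [h3, ha']; simp
      · intro h3
        have h4 : ⌈x * w n⌉ % (M n : ℤ) = a := by
          rw [← h3, Int.toNat_of_nonneg h0]
        have h5 : ⌈x * w n⌉ ≡ a [ZMOD (M n : ℤ)] := by
          unfold Int.ModEq; rw [h4, ha']
        exact (Int.modEq_iff_dvd).1 h5.symm
    simp only [e2]
  rw [h1, Finset.sum_congr rfl h2, Finset.sum_ite_eq]
  unfold f
  ring

lemma f_nonneg (n : ℕ) (x : ℝ) : 0 ≤ f w M A n x := by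
  unfold f; split_ifs <;> norm_num

lemma f_le (n : ℕ) (x : ℝ) : f w M A n x ≤ 1 := by
  unfold f; split_ifs <;> norm_num

lemma v_nonneg (n : ℕ) : 0 ≤ v M A n := by unfold v; positivity

include hM hA in
lemma v_le (n : ℕ) : v M A n ≤ 1 := by
  unfold v
  have h1 : (0 : ℝ) < M n := by exact_mod_cast (hM n)
  rw [div_le_one h1]
  have := Finset.card_le_card (hA n)
  rw [Finset.card_range] at this
  exact_mod_cast this

include hM hA in
lemma F_le (n : ℕ) (x : ℝ) : |F w M A n x| ≤ 1 := by
  have h1 := f_eq hM hA n x (w := w)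
  have h2 := f_nonneg (w := w) (M := M) (A := A) n x
  have h3 := f_le (w := w) (M := M) (A := A) n x
  have h4 := v_nonneg (M := M) (A := A) n
  have h5 := v_le hM hA n
  rw [abs_le]; constructor <;> linarith

lemma F_meas (n : ℕ) : Measurable (F w M A n) := by
  unfold F
  refine Finset.measurable_fun_sum _ fun a _ => ?_
  exact (hh_meas (M n)).comp ((measurable_id.mul_const _).sub_const _)

lemma f_meas (n : ℕ) : Measurable (f w M A n) := by
  unfold f
  refine Measurable.ite ?_ measurable_const measurable_const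
  have h1 : Measurable fun x : ℝ => ⌈x * w n⌉ :=
    (Int.measurable_ceil (R := ℝ)).comp (measurable_id.mul_const _)
  exact h1 (MeasurableSet.of_discrete (s := {z : ℤ | (z % (M n : ℤ)).toNat ∈ A n}))

include hM hA in
lemma F_int (n : ℕ) (s : Set ℝ) (hs : volume s ≠ ⊤) : IntegrableOn (F w M A n) s :=
  Measure.integrableOn_of_bounded (M := 1) hs (F_meas n).aestronglyMeasurable
    (Filter.Eventually.of_forall fun x => by rw [Real.norm_eq_abs]; exact F_le hM hA n x)

lemma f_int (n : ℕ) (s : Set ℝ) (hs : volume s ≠ ⊤) : IntegrableOn (f w M A n) s :=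
  Measure.integrableOn_of_bounded (M := 1) hs (f_meas n).aestronglyMeasurable
    (Filter.Eventually.of_forall fun x => by
      rw [Real.norm_eq_abs, abs_of_nonneg (f_nonneg n x)]; exact f_le n x)

include hM hA in
lemma FF_int' (m n : ℕ) (s : Set ℝ) (hs : volume s ≠ ⊤) :
    IntegrableOn (fun x => F w M A m x * F w M A n x) s :=
  Measure.integrableOn_of_bounded (M := 1) hs ((F_meas m).mul (F_meas n)).aestronglyMeasurable
    (Filter.Eventually.of_forall fun x => by
      rw [Real.norm_eq_abs, abs_mul]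
      exact mul_le_one₀ (F_le hM hA m x) (abs_nonneg _) (F_le hM hA n x))

include hw hM in
lemma F_small (n : ℕ) {a b : ℝ} (hab : a ≤ b) :
    |∫ x in a..b, F w M A n x| ≤ ((A n).card : ℝ) / w n := by
  have hone : ∀ c : ℕ, |∫ x in a..b, hh (M n) (x * w n - c)| ≤ 1 / w n := by
    intro c
    have e1 : ∫ x in a..b, hh (M n) (x * w n - c) = ∫ x in a..b, hh (M n) (w n * x - c) := by
      simp only [mul_comm]
    rw [e1, intervalIntegral.integral_comp_mul_sub (fun y => hh (M n) y) (hw n).ne', smul_eq_mul,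
      abs_mul, abs_of_pos (inv_pos.2 (hw n)), one_div]
    have := hh_interval (hM n) (u := w n * a - c) (v := w n * b - c) (by
      have := mul_le_mul_of_nonneg_left hab (hw n).le
      linarith)
    calc _ ≤ (w n)⁻¹ * 1 := by
          have := inv_pos.2 (hw n)
          gcongr
      _ = _ := mul_one _
  have hint : ∀ c ∈ A n, IntervalIntegrable (fun x => hh (M n) (x * w n - c)) volume a b := by
    intro c _
    refine (intervalIntegrable_const (c := (1 : ℝ))).mono_fun
      ((hh_meas (M n)).comp ((measurable_id.mul_const _).sub_const _)).aestronglyMeasurable ?_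
    refine Filter.Eventually.of_forall fun y => ?_
    rw [Real.norm_eq_abs]
    simpa using abs_hh_le (hM n) _
  unfold F
  rw [intervalIntegral.integral_finsetSum hint]
  calc _ ≤ ∑ c ∈ A n, |∫ x in a..b, hh (M n) (x * w n - c)| := Finset.abs_sum_le_sum_abs _ _
    _ ≤ ∑ _c ∈ A n, 1 / w n := Finset.sum_le_sum fun c _ => hone c
    _ = _ := by rw [Finset.sum_const, nsmul_eq_mul]; ring

include hw hM hA in
lemma F_one (n : ℕ) (u : ℝ) : |∫ x in Set.Ioc u (u + 1), F w M A n x| ≤ ((A n).card : ℝ) / w n := by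
  rw [← intervalIntegral.integral_of_le (by linarith)]
  exact F_small hw hM n (by linarith)

include hw hM hA in
lemma F_pair {m n : ℕ} (u : ℝ) :
    |∫ x in Set.Ioc u (u + 1), F w M A m x * F w M A n x| ≤
      (w m + 2) * (((A n).card : ℝ) / w n) := by
  have hs : Monotone fun x : ℝ => ⌈x * w m⌉ := fun x y hxy =>
    Int.ceil_mono (mul_le_mul_of_nonneg_right hxy (hw m).le)
  have hfib : ∀ x y : ℝ, ⌈x * w m⌉ = ⌈y * w m⌉ → F w M A m x = F w M A m y := by
    intro x y hxy
    have h1 := f_eq hM hA m x (w := w)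
    have h2 := f_eq hM hA m y (w := w)
    have h3 : f w M A m x = f w M A m y := by unfold f; rw [hxy]
    linarith
  have h1 := cell hs (u := u) (v := u + 1) (by linarith) hfib zero_le_one
    (fun x => F_le hM hA m x) (F_int hM hA n _ (by simp)) (D := ((A n).card : ℝ) / w n)
    (fun I hI hIo => oc (div_nonneg (Nat.cast_nonneg _) (hw n).le)
      (fun a b hab => F_small hw hM n hab) hIo (hI.trans Set.Ioc_subset_Icc_self))
  refine h1.trans ?_
  rw [one_mul, mul_comm]
  have h2 : ((⌈(u + 1) * w m⌉ : ℝ) - ⌈u * w m⌉ + 1) ≤ w m + 2 := by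
    have := Int.ceil_lt_add_one ((u + 1) * w m)
    have := Int.le_ceil (u * w m)
    nlinarith
  exact mul_le_mul_of_nonneg_right h2 (div_nonneg (Nat.cast_nonneg _) (hw n).le)

variable {C : ℝ} (hC : 0 ≤ C) (hgr : ∀ n, (M n : ℝ) * (1 + ∑ m ∈ Finset.range n, (w m + 2)) ≤ C * w n)

include hw hM hgr in
lemma card_w (n : ℕ) : (1 + ∑ m ∈ Finset.range n, (w m + 2)) * (((A n).card : ℝ) / w n) ≤
    C * v M A n := by
  unfold v
  have hM0 : (0 : ℝ) < M n := by exact_mod_cast (hM n)
  rw [← mul_div_assoc, ← mul_div_assoc, div_le_div_iff₀ (hw n) hM0]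
  have := mul_le_mul_of_nonneg_left (hgr n) (Nat.cast_nonneg (α := ℝ) (A n).card)
  nlinarith

include hw hM hgr in
lemma card_w1 (n : ℕ) : ((A n).card : ℝ) / w n ≤ C * v M A n := by
  refine le_trans ?_ (card_w hw hM hgr n)
  have h1 : (1 : ℝ) ≤ 1 + ∑ m ∈ Finset.range n, (w m + 2) := by
    have : 0 ≤ ∑ m ∈ Finset.range n, (w m + 2) := Finset.sum_nonneg fun m _ => by
      have := hw m; linarith
    linarith
  have h2 : 0 ≤ ((A n).card : ℝ) / w n := div_nonneg (Nat.cast_nonneg _) (hw n).le
  nlinarith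

include hw hM hA hC hgr in
lemma F_diag (n : ℕ) (u : ℝ) : ∫ x in Set.Ioc u (u + 1), F w M A n x * F w M A n x ≤
    (C + 2) * v M A n := by
  have h1 : ∫ x in Set.Ioc u (u + 1), F w M A n x * F w M A n x ≤
      ∫ x in Set.Ioc u (u + 1), (2 * v M A n + F w M A n x) := by
    refine setIntegral_mono (FF_int' hM hA n n _ (by simp))
      ((integrable_const _).add (F_int hM hA n _ (by simp))) ?_
    intro x
    have h2 := f_eq hM hA n x (w := w)
    have h3 := f_nonneg (w := w) (M := M) (A := A) n x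
    have h4 := f_le (w := w) (M := M) (A := A) n x
    have h5 := v_nonneg (M := M) (A := A) n
    have h6 := v_le hM hA n
    show F w M A n x * F w M A n x ≤ 2 * v M A n + F w M A n x
    have h7 : F w M A n x = f w M A n x - v M A n := by linarith
    rw [h7]
    nlinarith
  refine h1.trans ?_
  rw [integral_add (integrable_const _) (F_int hM hA n _ (by simp)), setIntegral_const]
  have h2 := (abs_le.1 (F_one hw hM hA n u)).2
  have h3 := card_w1 (A := A) hw hM hgr n
  have e3 : volume.real (Set.Ioc u (u + 1)) = 1 := by simp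
  rw [e3, one_smul]
  linarith

include hw hM hA hC hgr in
lemma variance (u : ℝ) (a b : ℕ) :
    ∫ x in Set.Ioc u (u + 1), (∑ q ∈ Finset.Ico a b, F w M A q x) ^ 2 ≤
      (3 * C + 2) * ∑ q ∈ Finset.Ico a b, v M A q := by
  have e1 : ∀ x, (∑ j ∈ Finset.Ico a b, F w M A j x) ^ 2 =
      ∑ i ∈ Finset.Ico a b, ∑ j ∈ Finset.Ico a b, F w M A i x * F w M A j x := by
    intro x; rw [sq, Finset.sum_mul_sum]
  simp only [e1]
  rw [integral_finsetSum _ fun i _ => integrable_finsetSum _ fun j _ =>
    FF_int' hM hA i j _ (by simp)]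
  have e2 : ∀ i ∈ Finset.Ico a b, ∫ x in Set.Ioc u (u + 1),
      ∑ j ∈ Finset.Ico a b, F w M A i x * F w M A j x =
      ∑ j ∈ Finset.Ico a b, ∫ x in Set.Ioc u (u + 1), F w M A i x * F w M A j x := fun i _ =>
    integral_finsetSum _ fun j _ => FF_int' hM hA i j _ (by simp)
  rw [Finset.sum_congr rfl e2]
  set g : ℕ → ℕ → ℝ := fun i j => if i < j then (w i + 2) * (((A j).card : ℝ) / w j) else 0 with hg
  have hbound : ∀ i j, ∫ x in Set.Ioc u (u + 1), F w M A i x * F w M A j x ≤
      g i j + g j i + (if i = j then (C + 2) * v M A i else 0) := by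
    intro i j
    rcases lt_trichotomy i j with h | h | h
    · have h1 := (abs_le.1 (F_pair (w := w) (M := M) (A := A) hw hM hA (m := i) (n := j) u)).2
      simp only [hg]
      rw [if_pos h, if_neg (by omega), if_neg h.ne]
      linarith
    · subst h
      have hgi : g i i = 0 := by simp only [hg]; rw [if_neg (lt_irrefl _)]
      rw [hgi, if_pos rfl]
      have := F_diag hw hM hA hC hgr i u
      linarith
    · have h1 := (abs_le.1 (F_pair (w := w) (M := M) (A := A) hw hM hA (m := j) (n := i) u)).2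
      have e3 : ∫ x in Set.Ioc u (u + 1), F w M A i x * F w M A j x =
          ∫ x in Set.Ioc u (u + 1), F w M A j x * F w M A i x := by
        refine integral_congr_ae (Filter.Eventually.of_forall fun x => ?_)
        exact mul_comm _ _
      rw [e3]
      simp only [hg]
      rw [if_neg (by omega), if_pos h, if_neg h.ne']
      linarith
  have hcol : ∀ j, ∑ i ∈ Finset.Ico a b, g i j ≤ C * v M A j := by
    intro j
    have hq : 0 ≤ ((A j).card : ℝ) / w j := div_nonneg (Nat.cast_nonneg _) (hw j).le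
    calc ∑ i ∈ Finset.Ico a b, g i j ≤ ∑ i ∈ Finset.range j, (w i + 2) * (((A j).card : ℝ) / w j) := by
          simp only [hg]
          rw [← Finset.sum_filter]
          refine Finset.sum_le_sum_of_subset_of_nonneg ?_ ?_
          · intro i hi
            exact Finset.mem_range.2 (Finset.mem_filter.1 hi).2
          · intro i _ _
            have := hw i
            positivity
      _ = (∑ i ∈ Finset.range j, (w i + 2)) * (((A j).card : ℝ) / w j) := by rw [Finset.sum_mul]
      _ ≤ (1 + ∑ i ∈ Finset.range j, (w i + 2)) * (((A j).card : ℝ) / w j) := by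
          gcongr; linarith
      _ ≤ _ := card_w hw hM hgr j
  calc ∑ i ∈ Finset.Ico a b, ∑ j ∈ Finset.Ico a b,
        ∫ x in Set.Ioc u (u + 1), F w M A i x * F w M A j x
      ≤ ∑ i ∈ Finset.Ico a b, ∑ j ∈ Finset.Ico a b,
        (g i j + g j i + (if i = j then (C + 2) * v M A i else 0)) :=
        Finset.sum_le_sum fun i _ => Finset.sum_le_sum fun j _ => hbound i j
    _ = (∑ j ∈ Finset.Ico a b, ∑ i ∈ Finset.Ico a b, g i j) +
        (∑ i ∈ Finset.Ico a b, ∑ j ∈ Finset.Ico a b, g j i) +
        ∑ i ∈ Finset.Ico a b, ∑ j ∈ Finset.Ico a b, (if i = j then (C + 2) * v M A i else 0) := by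
        simp only [Finset.sum_add_distrib]
        rw [Finset.sum_comm]
    _ ≤ (∑ j ∈ Finset.Ico a b, C * v M A j) + (∑ j ∈ Finset.Ico a b, C * v M A j) +
        ∑ j ∈ Finset.Ico a b, (C + 2) * v M A j := by
        refine add_le_add (add_le_add (Finset.sum_le_sum fun j _ => hcol j)
          (Finset.sum_le_sum fun j _ => hcol j)) (Finset.sum_le_sum fun i hi => ?_)
        rw [Finset.sum_ite_eq, if_pos hi]
    _ = (3 * C + 2) * ∑ q ∈ Finset.Ico a b, v M A q := by
        rw [Finset.mul_sum, ← Finset.sum_add_distrib, ← Finset.sum_add_distrib]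
        exact Finset.sum_congr rfl fun j _ => by ring

open Pool.Agent.TH888.R (gr one_le_gr)

include hw hM hA hC hgr in
/-- **The law for arbitrary targets.** -/
theorem law_one (k : ℕ) :
    ∀ᵐ x ∂(volume.restrict (Set.Ioc (k : ℝ) (k + 1))), ∃ B : ℝ, 0 ≤ B ∧ ∀ N : ℕ,
      |∑ n ∈ Finset.range N, (f w M A n x - v M A n)| ≤
        B * gr (∑ n ∈ Finset.range N, v M A n) := by
  have hv0 := v_nonneg (M := M) (A := A)
  by_cases hdiv : Tendsto (fun n => ∑ q ∈ Finset.range n, v M A q) atTop atTop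
  · refine Pool.Agent.TH888.R.blocks (f := f w M A) (m := fun q _ => v M A q) (φ := v M A)
      (B0 := 1) (K := 1) (C := 3 * C + 2) hv0 (v_le hM hA) hdiv zero_le_one (by positivity)
      f_meas (fun _ => measurable_const) f_nonneg (fun q _ => hv0 q) ?_ ?_ ?_
    · intro q x
      have h1 := f_eq hM hA q x (w := w)
      have h2 := F_le (w := w) hM hA q x
      rw [h1, add_sub_cancel_left]
      exact h2
    · exact Filter.Eventually.of_forall fun x q => by rw [one_mul]
    · intro a b _
      have e1 : ∀ x, (∑ q ∈ Finset.Ico a b, (f w M A q x - v M A q)) ^ 2 =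
          (∑ q ∈ Finset.Ico a b, F w M A q x) ^ 2 := by
        intro x
        congr 1
        refine Finset.sum_congr rfl fun q _ => ?_
        have h1 := f_eq hM hA q x (w := w)
        linarith
      simp only [e1]
      exact variance hw hM hA hC hgr k a b
  · have hsum : Summable (v M A) :=
      (summable_iff_not_tendsto_nat_atTop_of_nonneg hv0).2 hdiv
    have hint : ∀ q, ∫ x in Set.Ioc (k : ℝ) (k + 1), f w M A q x ≤ (C + 1) * v M A q := by
      intro q
      have e1 : ∀ x, f w M A q x = v M A q + F w M A q x := fun x => f_eq hM hA q x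
      simp only [e1]
      rw [integral_add (integrable_const _) (F_int hM hA q _ (by simp)), setIntegral_const]
      have h2 := (abs_le.1 (F_one hw hM hA q (k : ℝ))).2
      have h3 := card_w1 (A := A) hw hM hgr q
      have e3 : volume.real (Set.Ioc (k : ℝ) (k + 1)) = 1 := by simp
      rw [e3, one_smul]
      linarith
    have h1 := ae_sum_bdd (μ := volume.restrict (Set.Ioc (k : ℝ) (k + 1))) (Z := f w M A)
      f_nonneg (fun q => f_int q _ (by simp))
      (Summable.of_nonneg_of_le (fun q => integral_nonneg fun x => f_nonneg q x) hint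
        (hsum.mul_left (C + 1)))
    filter_upwards [h1] with x hx
    obtain ⟨B, hB0, hB⟩ := hx
    refine ⟨B + ∑' q, v M A q, add_nonneg hB0 (tsum_nonneg hv0), fun N => ?_⟩
    rw [Finset.sum_sub_distrib]
    have h2 : ∑ n ∈ Finset.range N, v M A n ≤ ∑' q, v M A q := hsum.sum_le_tsum _ fun _ _ => hv0 _
    have h3 : 0 ≤ ∑ n ∈ Finset.range N, v M A n := Finset.sum_nonneg fun _ _ => hv0 _
    have h4 : 0 ≤ ∑ n ∈ Finset.range N, f w M A n x := Finset.sum_nonneg fun _ _ => f_nonneg _ _
    have h5 := one_le_gr h3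
    have h6 := hB N
    have h7 : |∑ n ∈ Finset.range N, f w M A n x - ∑ n ∈ Finset.range N, v M A n| ≤
        B + ∑' q, v M A q := by
      rw [abs_le]; constructor <;> linarith
    refine h7.trans ?_
    have h8 : 0 ≤ B + ∑' q, v M A q := add_nonneg hB0 (tsum_nonneg hv0)
    nlinarith

end Pool.Agent.Y935.WP
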